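import Pool.Agent.Q221.Conj.CMain

set_option autoImplicit false

/-!
# The c-conjugacy problem can be undecidable for a finite length-reducing confluent system

The letters are the states and the stack letters of two stack machines, the input letters, a padding
letter (every input letter is followed by it, so that a machine can push a letter while it reads), an
inert letter `J` and a zero letter. One machine reads the input from the left to the right, the other
one from the right to the left; when they meet the word becomes zero, and this makes the system
confluent. For `a = pf J B E(w) q0` and `b = p0 J qf` a nonzero equation `a g = g b` says that `g` is
an input word that is accepted by both machines, and the machines accept exactly the encodings of the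
solutions `s` of the correspondence equation `w f(s) = h(s) K`. Since no rule acts across `J`, the
conditions `g ∈ P(a)`, `h ∈ P(b)` hold for the solutions that one needs.

The definitions are in `Pool.Agent.Q221.Conj.Def`.
-/

namespace Pool.Agent.Results.MP_a5b0d0_al.CConjUndecidable

open Pool.Agent.Q221.Conj

/-- There is a finite length-reducing confluent string rewriting system for which no algorithm
decides, given two words, whether their classes are `c`-conjugate. -/
theorem result : ∃ (k : ℕ) (R : Set (List (Fin k) × List (Fin k))),
    R.Finite ∧ LengthReducing R ∧ Confluent R ∧
    ¬ ComputablePred (fun p : List (Fin k) × List (Fin k) => CConj (cl R p.1) (cl R p.2)) :=
  CMach.main

end Pool.Agent.Results.MP_a5b0d0_al.CConjUndecidable
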